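import Mathlib

set_option autoImplicit false

set_option linter.unusedSectionVars false
set_option linter.unusedVariables false

namespace Pool.Agent.Results.MP_6f70ff_gt.LineSub

/-! ### Definitions -/

/-- Every vertex can be moved to every other by an automorphism. -/
def VertexTransitive {V : Type} (G : SimpleGraph V) : Prop :=
  ∀ u v : V, ∃ φ : G ≃g G, φ u = v

/-- pairwise distances at least `k` -/
def Separated {V : Type} (G : SimpleGraph V) (k : ℕ) (N : Set V) : Prop :=
  ∀ u ∈ N, ∀ v ∈ N, u ≠ v → k ≤ G.dist u v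

/-- `k`-net: a set with pairwise distances at least `k`, maximal under inclusion -/
def IsNet {V : Type} (G : SimpleGraph V) (k : ℕ) (N : Set V) : Prop :=
  Separated G k N ∧ ∀ M : Set V, N ⊆ M → Separated G k M → M = N

/-- the `k`-net graph on `N` -/
def netGraph {V : Type} (G : SimpleGraph V) (k : ℕ) (N : Set V) : SimpleGraph N where
  Adj u v := 0 < G.dist (u : V) v ∧ G.dist (u : V) v ≤ 2 * k
  symm := ⟨fun u v h => by rw [G.dist_comm]; exact h⟩
  loopless := ⟨fun u h => by simp at h⟩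

/-- `f` is a `C`-rough isometry from `(V(G), d_G)` to `(V(H), d_H)` -/
def RoughIso {V W : Type} (G : SimpleGraph V) (H : SimpleGraph W) (C : ℝ) (f : V → W) : Prop :=
  (∀ x y, C⁻¹ * (H.dist (f x) (f y) : ℝ) - C ≤ (G.dist x y : ℝ) ∧
    (G.dist x y : ℝ) ≤ C * (H.dist (f x) (f y) : ℝ) + C) ∧
  ∀ y, ∃ x, (H.dist (f x) y : ℝ) < C

/-- the constant `C_k` for the `k`-net graph on `N` -/
noncomputable def Ck {V : Type} (G : SimpleGraph V) (k : ℕ) (N : Set V) : ℝ :=
  sInf {C : ℝ | 0 < C ∧ ∃ f : V → N, RoughIso G (netGraph G k N) C f}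

/-- `C_k → 1` for every choice of the `k`-net graphs -/
def SubScaleInvariant {V : Type} (G : SimpleGraph V) : Prop :=
  ∀ N : ℕ → Set V, (∀ k, 1 ≤ k → IsNet G k (N k)) →
    Filter.Tendsto (fun k => Ck G k (N k)) Filter.atTop (nhds 1)

/-! ### The line -/

def line : SimpleGraph ℤ where
  Adj x y := y = x + 1 ∨ x = y + 1
  symm := ⟨fun x y h => h.symm⟩
  loopless := ⟨fun x h => by omega⟩

theorem walk_lb (x y : ℤ) (p : line.Walk x y) : (x - y).natAbs ≤ p.length := by
  induction p with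
  | nil => simp
  | cons h p ih =>
    rw [SimpleGraph.Walk.length_cons]
    have h' : _ ∨ _ := h
    omega

theorem exists_walk (x : ℤ) (n : ℕ) : ∃ p : line.Walk x (x + n), p.length = n := by
  induction n with
  | zero => exact ⟨SimpleGraph.Walk.nil.copy rfl (by simp), by simp⟩
  | succ n ih =>
    obtain ⟨p, hp⟩ := ih
    have h : line.Adj (x + n) (x + ((n + 1 : ℕ) : ℤ)) := Or.inl (by push_cast; ring)
    exact ⟨p.concat h, by rw [SimpleGraph.Walk.length_concat, hp]⟩

theorem line_reach (x y : ℤ) : ∃ p : line.Walk x y, p.length = (x - y).natAbs := by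
  rcases le_total x y with h | h
  · obtain ⟨n, hn⟩ := Int.eq_ofNat_of_zero_le (sub_nonneg.2 h)
    have hy : y = x + (n : ℤ) := by omega
    subst hy
    obtain ⟨p, hp⟩ := exists_walk x n
    exact ⟨p, by rw [hp]; omega⟩
  · obtain ⟨n, hn⟩ := Int.eq_ofNat_of_zero_le (sub_nonneg.2 h)
    have hy : x = y + (n : ℤ) := by omega
    subst hy
    obtain ⟨p, hp⟩ := exists_walk y n
    exact ⟨p.reverse, by rw [SimpleGraph.Walk.length_reverse, hp]; omega⟩

theorem line_dist (x y : ℤ) : line.dist x y = (x - y).natAbs := by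
  obtain ⟨p, hp⟩ := line_reach x y
  apply le_antisymm
  · rw [← hp]; exact SimpleGraph.dist_le p
  · obtain ⟨q, hq⟩ := (p.reachable).exists_walk_length_eq_dist
    rw [← hq]; exact walk_lb x y q

theorem line_conn : line.Connected := by
  have : Nonempty ℤ := ⟨0⟩
  exact ⟨fun x y => (line_reach x y).choose.reachable⟩

theorem line_trans : VertexTransitive line := by
  intro u v
  refine ⟨⟨Equiv.addRight (v - u), ?_⟩, by show u + (v - u) = v; ring⟩
  intro a b
  show (b + (v - u) = a + (v - u) + 1 ∨ a + (v - u) = b + (v - u) + 1) ↔ (b = a + 1 ∨ a = b + 1)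
  omega

theorem line_locfin (v : ℤ) : (line.neighborSet v).Finite := by
  apply Set.Finite.subset (Set.toFinite {v + 1, v - 1})
  intro w hw
  have h : w = v + 1 ∨ v = w + 1 := hw
  simp only [Set.mem_insert_iff, Set.mem_singleton_iff]
  omega

/-! ### nets in the line -/

section Net

variable {k : ℕ} {N : Set ℤ} (hk : 1 ≤ k) (hN : IsNet line k N)

include hk hN

theorem net_gap (u : ℤ) (hu : u ∈ N) : ∃ w ∈ N, u < w ∧ w ≤ u + 2 * k := by
  by_contra hcon
  push Not at hcon
  have hsep : Separated line k (insert (u + k) N) := by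
    intro x hx y hy hxy
    rw [line_dist]
    have hfar : ∀ z ∈ N, k ≤ (u + k - z).natAbs := by
      intro z hz
      by_cases h : u < z
      · have := hcon z hz h; omega
      · omega
    rcases hx with rfl | hx
    · rcases hy with rfl | hy
      · exact absurd rfl hxy
      · exact hfar y hy
    · rcases hy with rfl | hy
      · have := hfar x hx; omega
      · have := hN.1 x hx y hy hxy
        rwa [line_dist] at this
  have h1 := hN.2 _ (Set.subset_insert _ _) hsep
  have h2 : u + k ∈ N := by rw [← h1]; exact Set.mem_insert _ _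
  have := hcon _ h2 (by omega)
  omega

theorem net_gap' (u : ℤ) (hu : u ∈ N) : ∃ w ∈ N, w < u ∧ u - 2 * k ≤ w := by
  by_contra hcon
  push Not at hcon
  have hsep : Separated line k (insert (u - k) N) := by
    intro x hx y hy hxy
    rw [line_dist]
    have hfar : ∀ z ∈ N, k ≤ (u - k - z).natAbs := by
      intro z hz
      by_cases h : z < u
      · have := hcon z hz h; omega
      · omega
    rcases hx with rfl | hx
    · rcases hy with rfl | hy
      · exact absurd rfl hxy
      · exact hfar y hy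
    · rcases hy with rfl | hy
      · have := hfar x hx; omega
      · have := hN.1 x hx y hy hxy
        rwa [line_dist] at this
  have h1 := hN.2 _ (Set.subset_insert _ _) hsep
  have h2 : u - k ∈ N := by rw [← h1]; exact Set.mem_insert _ _
  have := hcon _ h2 (by omega)
  omega

theorem net_nonempty : N.Nonempty := by
  by_contra hcon
  rw [Set.not_nonempty_iff_eq_empty] at hcon
  have h1 := hN.2 {0} (by rw [hcon]; exact Set.empty_subset _) (by
    intro x hx y hy hxy
    rw [Set.mem_singleton_iff] at hx hy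
    exact absurd (hx.trans hy.symm) hxy)
  rw [hcon] at h1
  exact Set.singleton_ne_empty 0 h1

theorem exists_up (u : N) : ∃ w : N, (u : ℤ) < w ∧ (w : ℤ) ≤ u + 2 * k ∧
    ∀ z ∈ N, z ≤ u + 2 * k → z ≤ w := by
  obtain ⟨w, hw, h1, h2⟩ := net_gap hk hN u u.2
  obtain ⟨m, ⟨hm1, hm2⟩, hm⟩ := Int.exists_greatest_of_bdd
    (P := fun z => z ∈ N ∧ z ≤ u + 2 * k) ⟨u + 2 * k, fun z hz => hz.2⟩ ⟨w, hw, h2⟩
  exact ⟨⟨m, hm1⟩, lt_of_lt_of_le h1 (hm w ⟨hw, h2⟩), hm2, fun z hz hz' => hm z ⟨hz, hz'⟩⟩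

theorem exists_dn (u : N) : ∃ w : N, (w : ℤ) < u ∧ (u : ℤ) - 2 * k ≤ w ∧
    ∀ z ∈ N, (u : ℤ) - 2 * k ≤ z → (w : ℤ) ≤ z := by
  obtain ⟨w, hw, h1, h2⟩ := net_gap' hk hN u u.2
  obtain ⟨m, ⟨hm1, hm2⟩, hm⟩ := Int.exists_least_of_bdd
    (P := fun z => z ∈ N ∧ (u : ℤ) - 2 * k ≤ z) ⟨u - 2 * k, fun z hz => hz.2⟩ ⟨w, hw, h2⟩
  exact ⟨⟨m, hm1⟩, lt_of_le_of_lt (hm w ⟨hw, h2⟩) h1, hm2, fun z hz hz' => hm z ⟨hz, hz'⟩⟩

/-- the two-sided greedy sequence -/
theorem exists_seq : ∃ a : ℤ → N,
    (∀ i, (a i : ℤ) < a (i + 1) ∧ (a (i + 1) : ℤ) ≤ a i + 2 * k) ∧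
    (∀ i, 0 ≤ i → ∀ z ∈ N, z ≤ a i + 2 * k → z ≤ a (i + 1)) ∧
    (∀ i, i ≤ -1 → ∀ z ∈ N, (a (i + 1) : ℤ) - 2 * k ≤ z → (a i : ℤ) ≤ z) := by
  choose up hup1 hup2 hup3 using exists_up hk hN
  choose dn hdn1 hdn2 hdn3 using exists_dn hk hN
  obtain ⟨u, hu⟩ := net_nonempty hk hN
  let a : ℤ → N := fun i => if 0 ≤ i then up^[i.toNat] ⟨u, hu⟩ else dn^[(-i).toNat] ⟨u, hu⟩
  have ha1 : ∀ i, 0 ≤ i → a (i + 1) = up (a i) := by
    intro i hi
    show (if 0 ≤ i + 1 then up^[(i + 1).toNat] ⟨u, hu⟩ else _) = up (if 0 ≤ i then _ else _)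
    rw [if_pos (by omega), if_pos hi, show (i + 1).toNat = i.toNat + 1 by omega,
      Function.iterate_succ_apply']
  have ha2 : ∀ i, i ≤ -1 → a i = dn (a (i + 1)) := by
    intro i hi
    show (if 0 ≤ i then _ else dn^[(-i).toNat] ⟨u, hu⟩) =
      dn (if 0 ≤ i + 1 then up^[(i + 1).toNat] ⟨u, hu⟩ else dn^[(-(i + 1)).toNat] ⟨u, hu⟩)
    rw [if_neg (by omega)]
    by_cases h : i = -1
    · subst h
      rfl
    · rw [if_neg (by omega), show (-i).toNat = (-(i + 1)).toNat + 1 by omega,
        Function.iterate_succ_apply']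
  refine ⟨a, ?_, ?_, ?_⟩
  · intro i
    by_cases h : 0 ≤ i
    · rw [ha1 i h]
      exact ⟨hup1 _, hup2 _⟩
    · rw [ha2 i (by omega)]
      refine ⟨hdn1 _, ?_⟩
      have := hdn2 (a (i + 1))
      omega
  · intro i hi z hz hz'
    rw [ha1 i hi]
    exact hup3 _ z hz hz'
  · intro i hi z hz hz'
    rw [ha2 i hi]
    exact hdn3 _ z hz hz'

end Net

theorem net_adj {k : ℕ} {N : Set ℤ} (x y : N) (h : (netGraph line k N).Adj x y) :
    (y : ℤ) ≤ x + 2 * k ∧ (x : ℤ) - 2 * k ≤ y := by
  have h1 : 0 < line.dist (x : ℤ) y ∧ line.dist (x : ℤ) y ≤ 2 * k := h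
  rw [line_dist] at h1
  omega

theorem main_k {k : ℕ} {N : Set ℤ} (hk : 1 ≤ k) (hN : IsNet line k N) : Ck line k N = 1 := by
  obtain ⟨a, ha1, ha2, ha3⟩ := exists_seq hk hN
  set H := netGraph line k N with hH
  have hadj : ∀ i, H.Adj (a i) (a (i + 1)) := by
    intro i
    have := ha1 i
    show 0 < line.dist (a i : ℤ) (a (i + 1)) ∧ line.dist (a i : ℤ) (a (i + 1)) ≤ 2 * k
    rw [line_dist]
    omega
  have hwalk : ∀ (n : ℕ) (i : ℤ), ∃ p : H.Walk (a i) (a (i + n)), p.length = n := by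
    intro n i
    induction n with
    | zero => exact ⟨SimpleGraph.Walk.nil.copy rfl (by simp), by simp⟩
    | succ n ih =>
      obtain ⟨p, hp⟩ := ih
      have h : H.Adj (a (i + n)) (a (i + ((n + 1 : ℕ) : ℤ))) := by
        have := hadj (i + n)
        rwa [show i + (n : ℤ) + 1 = i + ((n + 1 : ℕ) : ℤ) by push_cast; ring] at this
      exact ⟨p.concat h, by rw [SimpleGraph.Walk.length_concat, hp]⟩
  have hmono : ∀ (n : ℕ) (i : ℤ), (a i : ℤ) + n ≤ a (i + n) := by
    intro n i
    induction n with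
    | zero => simp
    | succ n ih =>
      have := (ha1 (i + n)).1
      rw [show i + (n : ℤ) + 1 = i + ((n + 1 : ℕ) : ℤ) by push_cast; ring] at this
      push_cast at this ⊢
      omega
  have hlt : ∀ i j, i < j → (a i : ℤ) < a j := by
    intro i j hij
    obtain ⟨n, hn⟩ := Int.eq_ofNat_of_zero_le (show 0 ≤ j - i by omega)
    have := hmono n i
    rw [show i + (n : ℤ) = j by omega] at this
    omega
  -- the invariant
  let Q : ℤ → ℤ → Prop := fun m x => (m ≤ 0 ∧ x < a m) ∨ (0 ≤ m ∧ x ≤ a m)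
  have hQstep : ∀ m (x y : N), H.Adj x y → Q m x → Q (m + 1) y := by
    intro m x y hxy hQ
    have h1 := net_adj x y hxy
    by_cases hm : m ≤ -1
    · have hx : (x : ℤ) < a m := by
        rcases hQ with h | h
        · exact h.2
        · omega
      left
      refine ⟨by omega, ?_⟩
      by_contra hcon
      have h2 := ha3 m hm x x.2 (by omega)
      omega
    · have hx : (x : ℤ) ≤ a m := by
        rcases hQ with h | h
        · exact h.2.le
        · exact h.2
      right
      refine ⟨by omega, ha2 m (by omega) y y.2 (by omega)⟩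
  have hQwalk : ∀ (x y : N) (p : H.Walk x y) (m : ℤ), Q m x → Q (m + p.length) y := by
    intro x y p
    induction p with
    | nil => intro m hm; simpa using hm
    | cons h p ih =>
      intro m hm
      have h1 := ih (m + 1) (hQstep m _ _ h hm)
      rw [SimpleGraph.Walk.length_cons]
      rwa [show m + ((p.length + 1 : ℕ) : ℤ) = m + 1 + p.length by push_cast; ring]
  have hlb : ∀ i j, i ≤ j → j - i - 1 ≤ (H.dist (a i) (a j) : ℤ) := by
    intro i j hij
    obtain ⟨n, hn⟩ := Int.eq_ofNat_of_zero_le (show 0 ≤ j - i by omega)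
    obtain ⟨p, _⟩ := hwalk n i
    rw [show i + (n : ℤ) = j by omega] at p
    obtain ⟨q, hq⟩ := (p.reachable).exists_walk_length_eq_dist
    rw [← hq]
    have hend : ∀ m, Q m (a j) → j ≤ m := by
      intro m hQ
      by_contra hcon
      have h1 := hlt m j (by omega)
      rcases hQ with h | h
      · omega
      · omega
    by_cases hi : 0 ≤ i
    · have h1 := hend _ (hQwalk _ _ q i (Or.inr ⟨hi, le_rfl⟩))
      omega
    · have h1 := hend _ (hQwalk _ _ q (i + 1) (Or.inl ⟨by omega, (ha1 i).1⟩))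
      omega
  have hub : ∀ i j, i ≤ j → (H.dist (a i) (a j) : ℤ) ≤ j - i := by
    intro i j hij
    obtain ⟨n, hn⟩ := Int.eq_ofNat_of_zero_le (show 0 ≤ j - i by omega)
    obtain ⟨p, hp⟩ := hwalk n i
    have h1 := SimpleGraph.dist_le p
    rw [hp, show i + (n : ℤ) = j by omega] at h1
    omega
  have hboth : ∀ i j, (H.dist (a i) (a j) : ℤ) ≤ line.dist i j ∧
      (line.dist i j : ℤ) ≤ H.dist (a i) (a j) + 1 := by
    intro i j
    rw [line_dist]
    rcases le_total i j with h | h
    · have h1 := hlb i j h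
      have h2 := hub i j h
      omega
    · have h1 := hlb j i h
      have h2 := hub j i h
      rw [H.dist_comm]
      omega
  have hdense : ∀ y : N, ∃ i, H.dist (a i) y ≤ 1 := by
    intro y
    obtain ⟨m, hm1, hm2⟩ := Int.exists_greatest_of_bdd (P := fun i => (a i : ℤ) ≤ y)
      ⟨|(y : ℤ) - a 0|, fun z hz => by
        by_contra hcon
        have h00 := abs_nonneg ((y : ℤ) - a 0)
        have h0 : 0 ≤ z := by omega
        obtain ⟨n, hn⟩ := Int.eq_ofNat_of_zero_le h0
        have h1 := hmono n 0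
        rw [zero_add, ← hn] at h1
        have h2 := le_abs_self ((y : ℤ) - a 0)
        omega⟩
      ⟨-|(y : ℤ) - a 0|, by
        obtain ⟨n, hn⟩ := Int.eq_ofNat_of_zero_le (abs_nonneg ((y : ℤ) - a 0))
        rw [hn]
        have h1 := hmono n (-(n : ℤ))
        rw [neg_add_cancel] at h1
        have h2 := neg_abs_le ((y : ℤ) - a 0)
        rw [hn] at h2
        omega⟩
    have h3 : (y : ℤ) < a (m + 1) := by
      by_contra hcon
      have := hm2 (m + 1) (by omega)
      omega
    have h4 := ha1 m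
    refine ⟨m, ?_⟩
    by_cases he : a m = y
    · rw [he, SimpleGraph.dist_self]; omega
    · have hne : (a m : ℤ) ≠ y := fun h => he (Subtype.ext h)
      have hA : H.Adj (a m) y := by
        show 0 < line.dist (a m : ℤ) y ∧ line.dist (a m : ℤ) y ≤ 2 * k
        rw [line_dist]
        omega
      rw [SimpleGraph.dist_eq_one_iff_adj.2 hA]
  -- every constant is at least one
  have hge : ∀ C ∈ {C : ℝ | 0 < C ∧ ∃ f : ℤ → N, RoughIso line H C f}, 1 ≤ C := by
    rintro C ⟨hC, f, hf, _⟩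
    by_contra hcon
    push Not at hcon
    have hinv : 1 < C⁻¹ := (one_lt_inv₀ hC).2 hcon
    have hD : 0 < C⁻¹ - C := by linarith
    have hb : ∀ x y, (H.dist (f x) (f y) : ℝ) ≤ 2 * C / (C⁻¹ - C) := by
      intro x y
      obtain ⟨h1, h2⟩ := hf x y
      rw [le_div_iff₀ hD]
      nlinarith
    obtain ⟨n, hn⟩ := exists_nat_gt (C * (2 * C / (C⁻¹ - C)) + C)
    have h3 := (hf 0 n).2
    rw [line_dist] at h3
    have h4 : ((0 : ℤ) - (n : ℤ)).natAbs = n := by omega
    rw [h4] at h3
    have h5 := mul_le_mul_of_nonneg_left (hb 0 n) hC.le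
    linarith
  have hmem : ∀ C : ℝ, 1 < C → C ∈ {C : ℝ | 0 < C ∧ ∃ f : ℤ → N, RoughIso line H C f} := by
    intro C hC
    refine ⟨by linarith, a, ?_, ?_⟩
    · intro x y
      obtain ⟨h1, h2⟩ := hboth x y
      have h1' : (H.dist (a x) (a y) : ℝ) ≤ line.dist x y := by exact_mod_cast h1
      have h2' : (line.dist x y : ℝ) ≤ H.dist (a x) (a y) + 1 := by exact_mod_cast h2
      have h3 : (0 : ℝ) ≤ H.dist (a x) (a y) := Nat.cast_nonneg _
      have h4 : C⁻¹ ≤ 1 := inv_le_one_of_one_le₀ hC.le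
      constructor
      · have := mul_le_mul_of_nonneg_right h4 h3
        linarith
      · nlinarith
    · intro y
      obtain ⟨i, hi⟩ := hdense y
      refine ⟨i, ?_⟩
      have : (H.dist (a i) y : ℝ) ≤ 1 := by exact_mod_cast hi
      linarith
  apply le_antisymm
  · apply le_of_forall_pos_le_add
    intro ε hε
    exact csInf_le ⟨1, hge⟩ (hmem (1 + ε) (by linarith))
  · exact le_csInf ⟨2, hmem 2 (by norm_num)⟩ hge

/-- **Main theorem.** There is an infinite, connected, locally finite, vertex-transitive graph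
that is sub scale invariant. -/
theorem result : ∃ (V : Type) (G : SimpleGraph V), Infinite V ∧ G.Connected ∧
    (∀ v, (G.neighborSet v).Finite) ∧ VertexTransitive G ∧ SubScaleInvariant G := by
  refine ⟨ℤ, line, inferInstance, line_conn, line_locfin, line_trans, ?_⟩
  intro N hN
  apply tendsto_const_nhds.congr'
  filter_upwards [Filter.eventually_ge_atTop 1] with k hk
  exact (main_k hk (hN k hk)).symm

end Pool.Agent.Results.MP_6f70ff_gt.LineSub
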