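import Mathlib

namespace Pool.Agent.Results.MP_6f70ff_gt.TwoWayPath

open Filter

/-- `N` is a `k`-net of `G`: distinct points of `N` are at distance at least `k`, and `N` is
maximal under inclusion with this property. -/
def IsNet {V : Type} (G : SimpleGraph V) (k : ℕ) (N : Set V) : Prop :=
  (∀ u ∈ N, ∀ v ∈ N, u ≠ v → k ≤ G.dist u v) ∧
    ∀ M : Set V, N ⊆ M → (∀ u ∈ M, ∀ v ∈ M, u ≠ v → k ≤ G.dist u v) → M = N

/-- The `k`-net graph on `N`: `u ~ v` iff `0 < d(u, v) ≤ 2k`. -/
def netGraph {V : Type} (G : SimpleGraph V) (k : ℕ) (N : Set V) : SimpleGraph N where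
  Adj u v := 0 < G.dist (u : V) v ∧ G.dist (u : V) v ≤ 2 * k
  symm := ⟨fun u v h => by rwa [SimpleGraph.dist_comm]⟩
  loopless := ⟨fun u h => by simp at h⟩

/-- `f` is a `C`-rough isometry between the vertex sets of `G` and `H` with the graph metrics. -/
def IsRoughIsometry {X Y : Type} (G : SimpleGraph X) (H : SimpleGraph Y) (C : ℝ)
    (f : X → Y) : Prop :=
  (∀ x y, C⁻¹ * (H.dist (f x) (f y) : ℝ) - C ≤ (G.dist x y : ℝ) ∧
    (G.dist x y : ℝ) ≤ C * (H.dist (f x) (f y) : ℝ) + C) ∧
    ∀ y, ∃ x, (H.dist (f x) y : ℝ) < C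

/-- The infimum of all `C > 0` for which a `C`-rough isometry from `G` to `H` exists. -/
noncomputable def roughConst {X Y : Type} (G : SimpleGraph X) (H : SimpleGraph Y) : ℝ :=
  sInf {C : ℝ | 0 < C ∧ ∃ f : X → Y, IsRoughIsometry G H C f}

/-- `G` is vertex transitive. -/
def VertexTransitive {V : Type} (G : SimpleGraph V) : Prop := ∀ u v, ∃ φ : G ≃g G, φ u = v

/-- `G` is sub scale invariant: for every choice of `k`-nets `N k` (`k ≥ 1`), the constants
`C_k` tend to `1`. -/
def SubScaleInvariant {V : Type} (G : SimpleGraph V) : Prop :=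
  ∀ N : ℕ → Set V, (∀ k, 1 ≤ k → IsNet G k (N k)) →
    Tendsto (fun k => roughConst G (netGraph G k (N k))) atTop (nhds 1)

/-- The two-way infinite path. -/
def line : SimpleGraph ℤ where
  Adj x y := (x - y).natAbs = 1
  symm := ⟨fun x y h => by omega⟩
  loopless := ⟨fun x h => by simp at h⟩

theorem walk_ge {x y : ℤ} (p : line.Walk x y) : (x - y).natAbs ≤ p.length := by
  induction p with
  | nil => simp
  | cons h p ih =>
    have h' := h
    simp only [line] at h'
    rw [SimpleGraph.Walk.length_cons]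
    omega

theorem walk_ex (n : ℕ) : ∀ x y : ℤ, y = x + n → ∃ p : line.Walk x y, p.length = n := by
  induction n with
  | zero =>
    intro x y h
    obtain rfl : y = x := by simpa using h
    exact ⟨SimpleGraph.Walk.nil, rfl⟩
  | succ n ih =>
    intro x y h
    obtain ⟨p, hp⟩ := ih (x + 1) y (by push_cast at h; omega)
    have hadj : line.Adj x (x + 1) := by simp [line]
    exact ⟨SimpleGraph.Walk.cons hadj p, by simp [hp]⟩

theorem line_reach (x y : ℤ) : line.Reachable x y := by
  rcases le_total x y with h | h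
  · obtain ⟨p, -⟩ := walk_ex (y - x).toNat x y (by omega)
    exact ⟨p⟩
  · obtain ⟨p, -⟩ := walk_ex (x - y).toNat y x (by omega)
    exact ⟨p.reverse⟩

theorem line_conn : line.Connected :=
  { preconnected := line_reach, nonempty := ⟨0⟩ }

theorem line_dist (x y : ℤ) : line.dist x y = (x - y).natAbs := by
  apply le_antisymm
  · rcases le_total x y with h | h
    · obtain ⟨p, hp⟩ := walk_ex (y - x).toNat x y (by omega)
      have := SimpleGraph.dist_le p
      omega
    · obtain ⟨p, hp⟩ := walk_ex (x - y).toNat y x (by omega)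
      have := SimpleGraph.dist_le p
      rw [SimpleGraph.dist_comm]
      omega
  · obtain ⟨p, hp⟩ := (line_reach x y).exists_walk_length_eq_dist
    rw [← hp]
    exact walk_ge p

section Net

variable {k : ℕ} {N : Set ℤ}

theorem net_cover (hk : 1 ≤ k) (hN : IsNet line k N) (x : ℤ) :
    ∃ u ∈ N, (x - u).natAbs < k := by
  by_contra hcon
  push Not at hcon
  have hx : x ∉ N := fun hx => by
    have := hcon x hx
    simp at this
    omega
  have := hN.2 (insert x N) (Set.subset_insert _ _) (by
    intro u hu v hv huv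
    rw [line_dist]
    rcases hu with rfl | hu <;> rcases hv with rfl | hv
    · exact absurd rfl huv
    · exact hcon v hv
    · have := hcon u hu
      omega
    · have := hN.1 u hu v hv huv
      rwa [line_dist] at this)
  exact hx (this ▸ Set.mem_insert x N)

theorem exR (hk : 1 ≤ k) (hN : IsNet line k N) (n : ℤ) :
    ∃ m ∈ N, n < m ∧ m ≤ n + 2 * k ∧ ∀ z ∈ N, z ≤ n + 2 * k → z ≤ m := by
  obtain ⟨u, hu, hu2⟩ := net_cover hk hN (n + k)
  obtain ⟨m, hm1, hm2⟩ := Int.exists_greatest_of_bdd (P := fun z => z ∈ N ∧ z ≤ n + 2 * k)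
    ⟨n + 2 * k, fun z hz => hz.2⟩ ⟨u, hu, by omega⟩
  refine ⟨m, hm1.1, ?_, hm1.2, fun z hz hz2 => hm2 z ⟨hz, hz2⟩⟩
  have := hm2 u ⟨hu, by omega⟩
  omega

theorem exL (hk : 1 ≤ k) (hN : IsNet line k N) (n : ℤ) :
    ∃ m ∈ N, m < n ∧ n - 2 * k ≤ m ∧ ∀ z ∈ N, n - 2 * k ≤ z → m ≤ z := by
  obtain ⟨u, hu, hu2⟩ := net_cover hk hN (n - k)
  obtain ⟨m, hm1, hm2⟩ := Int.exists_least_of_bdd (P := fun z => z ∈ N ∧ n - 2 * k ≤ z)
    ⟨n - 2 * k, fun z hz => hz.2⟩ ⟨u, hu, by omega⟩
  refine ⟨m, hm1.1, ?_, hm1.2, fun z hz hz2 => hm2 z ⟨hz, hz2⟩⟩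
  have := hm2 u ⟨hu, by omega⟩
  omega

/-- The greedy sequences to the right and to the left. -/
theorem exSeq (hk : 1 ≤ k) (hN : IsNet line k N) : ∃ r l : ℕ → N, r 0 = l 0 ∧
    (∀ i, (r i : ℤ) < r (i + 1) ∧ (r (i + 1) : ℤ) ≤ r i + 2 * k ∧
      ∀ z ∈ N, z ≤ r i + 2 * k → z ≤ r (i + 1)) ∧
    (∀ i, (l (i + 1) : ℤ) < l i ∧ (l i : ℤ) - 2 * k ≤ l (i + 1) ∧
      ∀ z ∈ N, (l i : ℤ) - 2 * k ≤ z → l (i + 1) ≤ z) := by
  obtain ⟨u, hu, -⟩ := net_cover hk hN 0
  choose R hR1 hR2 using exR hk hN
  choose L hL1 hL2 using exL hk hN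
  let r : ℕ → N := fun i => Nat.rec ⟨u, hu⟩ (fun _ m => ⟨R m, hR1 m⟩) i
  let l : ℕ → N := fun i => Nat.rec ⟨u, hu⟩ (fun _ m => ⟨L m, hL1 m⟩) i
  refine ⟨r, l, rfl, fun i => ?_, fun i => ?_⟩
  · exact hR2 (r i).1
  · exact hL2 (l i).1

theorem adj_iff {u v : N} : (netGraph line k N).Adj u v ↔
    0 < ((u : ℤ) - v).natAbs ∧ ((u : ℤ) - v).natAbs ≤ 2 * k := by
  simp only [netGraph, line_dist]

variable (r l : ℕ → N)

theorem walkR (hr : ∀ i, ∀ z ∈ N, z ≤ (r i : ℤ) + 2 * k → z ≤ r (i + 1)) {u v : N}
    (p : (netGraph line k N).Walk u v) : ∀ i, (u : ℤ) ≤ r i → (v : ℤ) ≤ r (i + p.length) := by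
  induction p with
  | nil => intro i h; simpa using h
  | @cons a b c h p ih =>
    intro i hi
    have h' := adj_iff.1 h
    have := ih (i + 1) (hr i b b.2 (by omega))
    rw [SimpleGraph.Walk.length_cons]
    rwa [show i + (p.length + 1) = i + 1 + p.length by ring]

theorem walkL (hl : ∀ i, ∀ z ∈ N, (l i : ℤ) - 2 * k ≤ z → l (i + 1) ≤ z) {u v : N}
    (p : (netGraph line k N).Walk u v) : ∀ i, (l i : ℤ) ≤ u → (l (i + p.length) : ℤ) ≤ v := by
  induction p with
  | nil => intro i h; simpa using h
  | @cons a b c h p ih =>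
    intro i hi
    have h' := adj_iff.1 h
    have := ih (i + 1) (hl i b b.2 (by omega))
    rw [SimpleGraph.Walk.length_cons]
    rwa [show i + (p.length + 1) = i + 1 + p.length by ring]

theorem cross (h0 : r 0 = l 0)
    (hr : ∀ i, ∀ z ∈ N, z ≤ (r i : ℤ) + 2 * k → z ≤ r (i + 1))
    (hl : ∀ i, ∀ z ∈ N, (l i : ℤ) - 2 * k ≤ z → l (i + 1) ≤ z) {u v : N}
    (p : (netGraph line k N).Walk u v) : (u : ℤ) ≤ r 0 → (r 0 : ℤ) < v →
    ∃ (s q : N) (p1 : (netGraph line k N).Walk u s) (p2 : (netGraph line k N).Walk q v),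
      p.length = p1.length + 1 + p2.length ∧ (l 1 : ℤ) ≤ s ∧ (q : ℤ) ≤ r 1 := by
  induction p with
  | nil => intro h1 h2; omega
  | @cons a b c h p ih =>
    intro h1 h2
    have h' := adj_iff.1 h
    by_cases hb : (b : ℤ) ≤ r 0
    · obtain ⟨s, q, p1, p2, e, hs, hq⟩ := ih hb h2
      refine ⟨s, q, SimpleGraph.Walk.cons h p1, p2, ?_, hs, hq⟩
      rw [SimpleGraph.Walk.length_cons, SimpleGraph.Walk.length_cons]
      omega
    · refine ⟨a, b, SimpleGraph.Walk.nil, p, ?_, ?_, ?_⟩
      · rw [SimpleGraph.Walk.length_cons, SimpleGraph.Walk.length_nil]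
        omega
      · exact hl 0 a a.2 (by rw [← h0]; omega)
      · exact hr 0 b b.2 (by omega)

theorem adj_dist {u v : N} (h : (netGraph line k N).Adj u v) :
    (netGraph line k N).dist u v ≤ 1 := by
  have := SimpleGraph.dist_le (SimpleGraph.Walk.cons h SimpleGraph.Walk.nil)
  simpa using this

theorem near {u v : N} (h : ((u : ℤ) - v).natAbs ≤ 2 * k) :
    (netGraph line k N).Reachable u v ∧ (netGraph line k N).dist u v ≤ 1 := by
  by_cases huv : u = v
  · subst huv
    exact ⟨SimpleGraph.Reachable.refl _, by simp⟩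
  · have hne : (u : ℤ) ≠ v := fun e => huv (Subtype.ext e)
    have hadj : (netGraph line k N).Adj u v := adj_iff.2 ⟨by omega, h⟩
    exact ⟨hadj.reachable, adj_dist hadj⟩

end Net

/-- The main estimate: a map from the path to the net graph that changes distances by at most
one and whose image is `1`-dense. -/
theorem exMap {k : ℕ} {N : Set ℤ} (hk : 1 ≤ k) (hN : IsNet line k N) :
    (netGraph line k N).Connected ∧ ∃ f : ℤ → N,
      (∀ x y, (netGraph line k N).dist (f x) (f y) ≤ line.dist x y ∧
        line.dist x y ≤ (netGraph line k N).dist (f x) (f y) + 1) ∧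
      ∀ y, ∃ x, (netGraph line k N).dist (f x) y ≤ 1 := by
  obtain ⟨r, l, h0, hr, hl⟩ := exSeq hk hN
  have hr3 := fun i => (hr i).2.2
  have hl3 := fun i => (hl i).2.2
  have hrm : StrictMono fun i => (r i : ℤ) := strictMono_nat_of_lt_succ fun i => (hr i).1
  have hlm : StrictAnti fun i => (l i : ℤ) := strictAnti_nat_of_succ_lt fun i => (hl i).1
  have hrb : ∀ i : ℕ, (r 0 : ℤ) + i ≤ r i := by
    intro i
    induction i with
    | zero => simp
    | succ i ih => have := (hr i).1; push_cast; omega
  have hlb : ∀ i : ℕ, (l i : ℤ) ≤ l 0 - i := by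
    intro i
    induction i with
    | zero => simp
    | succ i ih => have := (hl i).1; push_cast; omega
  -- reachability along the sequences with length bounds
  have hrr : ∀ i t : ℕ, (netGraph line k N).Reachable (r i) (r (i + t)) ∧
      (netGraph line k N).dist (r i) (r (i + t)) ≤ t := by
    intro i t
    induction t with
    | zero => exact ⟨SimpleGraph.Reachable.refl _, by simp⟩
    | succ t ih =>
      have hn := near (k := k) (u := r (i + t)) (v := r (i + t + 1)) (by
        have h1 := (hr (i + t)).1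
        have h2 := (hr (i + t)).2.1
        omega)
      refine ⟨ih.1.trans hn.1, ?_⟩
      obtain ⟨p, hp⟩ := ih.1.exists_walk_length_eq_dist
      obtain ⟨q, hq⟩ := hn.1.exists_walk_length_eq_dist
      have := SimpleGraph.dist_le (p.append q)
      rw [SimpleGraph.Walk.length_append, hp, hq] at this
      have h3 := hn.2
      have h4 := ih.2
      rw [show i + (t + 1) = i + t + 1 by ring]
      omega
  have hll : ∀ i t : ℕ, (netGraph line k N).Reachable (l i) (l (i + t)) ∧
      (netGraph line k N).dist (l i) (l (i + t)) ≤ t := by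
    intro i t
    induction t with
    | zero => exact ⟨SimpleGraph.Reachable.refl _, by simp⟩
    | succ t ih =>
      have hn := near (k := k) (u := l (i + t)) (v := l (i + t + 1)) (by
        have h1 := (hl (i + t)).1
        have h2 := (hl (i + t)).2.1
        omega)
      refine ⟨ih.1.trans hn.1, ?_⟩
      obtain ⟨p, hp⟩ := ih.1.exists_walk_length_eq_dist
      obtain ⟨q, hq⟩ := hn.1.exists_walk_length_eq_dist
      have := SimpleGraph.dist_le (p.append q)
      rw [SimpleGraph.Walk.length_append, hp, hq] at this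
      have h3 := hn.2
      have h4 := ih.2
      rw [show i + (t + 1) = i + t + 1 by ring]
      omega
  -- density
  have dense : ∀ y : N, (∃ i, (netGraph line k N).Reachable (r i) y ∧
      (netGraph line k N).dist (r i) y ≤ 1) ∨ (∃ i, (netGraph line k N).Reachable (l i) y ∧
      (netGraph line k N).dist (l i) y ≤ 1) := by
    intro y
    rcases le_total (r 0 : ℤ) y with hy | hy
    · left
      have hex : ∃ i, (y : ℤ) < r i := ⟨((y : ℤ) - r 0).toNat + 1, by
        have := hrb (((y : ℤ) - r 0).toNat + 1)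
        push_cast at this
        omega⟩
      classical
      have h1 := Nat.find_spec hex
      have h2 : Nat.find hex ≠ 0 := fun h => by rw [h] at h1; omega
      obtain ⟨i, hi⟩ := Nat.exists_eq_succ_of_ne_zero h2
      have h3 := Nat.find_min hex (m := i) (by omega)
      rw [hi] at h1
      have h4 := (hr i).2.1
      have h5 : (y : ℤ) < r (i + 1) := h1
      exact ⟨i, near (by omega)⟩
    · right
      have hex : ∃ i, (l i : ℤ) < y := ⟨((l 0 : ℤ) - y).toNat + 1, by
        have := hlb (((l 0 : ℤ) - y).toNat + 1)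
        push_cast at this
        omega⟩
      classical
      have h1 := Nat.find_spec hex
      have h2 : Nat.find hex ≠ 0 := fun h => by rw [h, ← h0] at h1; omega
      obtain ⟨i, hi⟩ := Nat.exists_eq_succ_of_ne_zero h2
      have h3 := Nat.find_min hex (m := i) (by omega)
      rw [hi] at h1
      have h4 := (hl i).2.1
      have h5 : (l (i + 1) : ℤ) < y := h1
      exact ⟨i, near (by omega)⟩
  have hreach : ∀ y : N, (netGraph line k N).Reachable (r 0) y := by
    intro y
    rcases dense y with ⟨i, hi, -⟩ | ⟨i, hi, -⟩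
    · have := (hrr 0 i).1
      rw [zero_add] at this
      exact this.trans hi
    · have := (hll 0 i).1
      rw [zero_add, ← h0] at this
      exact this.trans hi
  have hconn : (netGraph line k N).Connected :=
    { preconnected := fun u v => (hreach u).symm.trans (hreach v), nonempty := ⟨r 0⟩ }
  -- same side distances
  have dR : ∀ i j : ℕ, i ≤ j → (netGraph line k N).dist (r i) (r j) = j - i := by
    intro i j hij
    apply le_antisymm
    · have := (hrr i (j - i)).2
      rwa [show i + (j - i) = j by omega] at this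
    · obtain ⟨p, hp⟩ := (hconn.preconnected (r i) (r j)).exists_walk_length_eq_dist
      have := walkR r hr3 p i le_rfl
      have := hrm.le_iff_le.1 this
      omega
  have dL : ∀ i j : ℕ, i ≤ j → (netGraph line k N).dist (l i) (l j) = j - i := by
    intro i j hij
    apply le_antisymm
    · have := (hll i (j - i)).2
      rwa [show i + (j - i) = j by omega] at this
    · obtain ⟨p, hp⟩ := (hconn.preconnected (l i) (l j)).exists_walk_length_eq_dist
      have := walkL l hl3 p i le_rfl
      have := hlm.le_iff_ge.1 this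
      omega
  have dX1 : ∀ i j : ℕ, (netGraph line k N).dist (l j) (r i) ≤ i + j := by
    intro i j
    have h1 := dR 0 i (Nat.zero_le i)
    have h2 := dL 0 j (Nat.zero_le j)
    have h3 := hconn.dist_triangle (u := l j) (v := l 0) (w := r i)
    rw [SimpleGraph.dist_comm (u := l j) (v := l 0), h2, ← h0, h1] at h3
    omega
  have dX2 : ∀ i j : ℕ, i + j ≤ (netGraph line k N).dist (l j) (r i) + 1 := by
    intro i j
    rcases Nat.eq_zero_or_pos i with rfl | hi
    · rw [h0, SimpleGraph.dist_comm, dL 0 j (Nat.zero_le j)]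
      omega
    · obtain ⟨p, hp⟩ := (hconn.preconnected (l j) (r i)).exists_walk_length_eq_dist
      obtain ⟨s, q, p1, p2, e, hs, hq⟩ := cross r l h0 hr3 hl3 p (by
        rw [h0]; exact hlm.antitone (Nat.zero_le j)) (hrm hi)
      have e1 := walkL l hl3 p1.reverse 1 hs
      have e2 := walkR r hr3 p2 1 hq
      have e3 := hlm.le_iff_ge.1 e1
      have e4 := hrm.le_iff_le.1 e2
      rw [SimpleGraph.Walk.length_reverse] at e3
      omega
  refine ⟨hconn, fun x => if 0 ≤ x then r x.toNat else l (-x).toNat, ?_, ?_⟩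
  · intro x y
    rw [line_dist]
    by_cases hx : 0 ≤ x <;> by_cases hy : 0 ≤ y
    · simp only [hx, hy, if_true]
      rcases le_total x y with h | h
      · rw [dR _ _ (by omega : x.toNat ≤ y.toNat)]
        omega
      · rw [SimpleGraph.dist_comm, dR _ _ (by omega : y.toNat ≤ x.toNat)]
        omega
    · simp only [hx, hy, if_true, if_false]
      rw [SimpleGraph.dist_comm]
      have h1 := dX1 x.toNat (-y).toNat
      have h2 := dX2 x.toNat (-y).toNat
      omega
    · simp only [hx, hy, if_true, if_false]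
      have h1 := dX1 y.toNat (-x).toNat
      have h2 := dX2 y.toNat (-x).toNat
      omega
    · simp only [hx, hy, if_false]
      rcases le_total x y with h | h
      · rw [SimpleGraph.dist_comm, dL _ _ (by omega : (-y).toNat ≤ (-x).toNat)]
        omega
      · rw [dL _ _ (by omega : (-x).toNat ≤ (-y).toNat)]
        omega
  · intro y
    rcases dense y with ⟨i, -, hi⟩ | ⟨i, -, hi⟩
    · exact ⟨(i : ℤ), by simpa using hi⟩
    · rcases Nat.eq_zero_or_pos i with rfl | hpos
      · exact ⟨0, by simpa [h0] using hi⟩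
      · refine ⟨-(i : ℤ), ?_⟩
        have : ¬ (0 : ℤ) ≤ -(i : ℤ) := by omega
        simp only [this, if_false]
        simpa using hi

/-- For every `k ≥ 1` and every `k`-net of the two-way infinite path the constant is `1`. -/
theorem const_eq {k : ℕ} {N : Set ℤ} (hk : 1 ≤ k) (hN : IsNet line k N) :
    roughConst line (netGraph line k N) = 1 := by
  obtain ⟨hconn, f, hf1, hf2⟩ := exMap hk hN
  have hmem : ∀ ε : ℝ, 0 < ε → (1 + ε) ∈ {C : ℝ | 0 < C ∧ ∃ f : ℤ → N,
      IsRoughIsometry line (netGraph line k N) C f} := by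
    intro ε hε
    refine ⟨by linarith, f, ?_, ?_⟩
    · intro x y
      have h1 : ((netGraph line k N).dist (f x) (f y) : ℝ) ≤ line.dist x y := by
        exact_mod_cast (hf1 x y).1
      have h2 : (line.dist x y : ℝ) ≤ (netGraph line k N).dist (f x) (f y) + 1 := by
        exact_mod_cast (hf1 x y).2
      have h3 : (0 : ℝ) ≤ ((netGraph line k N).dist (f x) (f y) : ℝ) := Nat.cast_nonneg _
      constructor
      · have h4 : (1 + ε)⁻¹ ≤ 1 := inv_le_one_of_one_le₀ (by linarith)
        have h5 : (1 + ε)⁻¹ * ((netGraph line k N).dist (f x) (f y) : ℝ) ≤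
            1 * ((netGraph line k N).dist (f x) (f y) : ℝ) := mul_le_mul_of_nonneg_right h4 h3
        linarith
      · nlinarith
    · intro y
      obtain ⟨x, hx⟩ := hf2 y
      refine ⟨x, ?_⟩
      have : ((netGraph line k N).dist (f x) y : ℝ) ≤ 1 := by exact_mod_cast hx
      linarith
  have hlow : ∀ C ∈ {C : ℝ | 0 < C ∧ ∃ f : ℤ → N,
      IsRoughIsometry line (netGraph line k N) C f}, 1 ≤ C := by
    rintro C ⟨hC, g, hg, -⟩
    by_contra hlt
    push Not at hlt
    obtain ⟨n, hn⟩ := exists_nat_gt ((C ^ 3 + C) / (1 - C ^ 2))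
    have hpos : 0 < 1 - C ^ 2 := by nlinarith
    have h1 := (hg 0 (n : ℤ)).1
    have h2 := (hg 0 (n : ℤ)).2
    have hd : (line.dist 0 (n : ℤ) : ℝ) = n := by
      rw [line_dist]; simp
    rw [hd] at h1 h2
    set d : ℝ := ((netGraph line k N).dist (g 0) (g (n : ℤ)) : ℝ)
    have h3 : d ≤ C * (n + C) := by
      have : C⁻¹ * d ≤ n + C := by linarith
      calc d = C * (C⁻¹ * d) := by field_simp
        _ ≤ C * (n + C) := mul_le_mul_of_nonneg_left this hC.le
    have h4 : (n : ℝ) ≤ C * (C * (n + C)) + C :=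
      h2.trans (by have := mul_le_mul_of_nonneg_left h3 hC.le; linarith)
    rw [div_lt_iff₀ hpos] at hn
    nlinarith
  apply le_antisymm
  · apply le_of_forall_pos_le_add
    intro ε hε
    exact csInf_le ⟨1, fun C hC => hlow C hC⟩ (hmem ε hε)
  · exact le_csInf ⟨_, hmem 1 one_pos⟩ hlow

/-- The two-way infinite path is an infinite connected locally finite vertex transitive graph, its
`k`-net graphs are connected, `C_k = 1` for every `k ≥ 1` and every choice of the `k`-net, and so
it is sub scale invariant. -/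
theorem result : Infinite ℤ ∧ line.Connected ∧ (∀ v, (line.neighborSet v).Finite) ∧
    VertexTransitive line ∧
    (∀ k : ℕ, 1 ≤ k → ∀ N : Set ℤ, IsNet line k N →
      (netGraph line k N).Connected ∧ roughConst line (netGraph line k N) = 1) ∧
    SubScaleInvariant line := by
  refine ⟨inferInstance, line_conn, ?_, ?_, fun k hk N hN => ⟨(exMap hk hN).1, const_eq hk hN⟩, ?_⟩
  · intro v
    apply (Set.toFinite ({v - 1, v + 1} : Set ℤ)).subset
    intro w hw
    have : (v - w).natAbs = 1 := hw
    simp only [Set.mem_insert_iff, Set.mem_singleton_iff]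
    omega
  · intro u v
    refine ⟨⟨Equiv.addRight (v - u), ?_⟩, by change u + (v - u) = v; ring⟩
    intro a b
    simp only [line, Equiv.coe_addRight]
    constructor <;> intro h <;> omega
  · intro N hN
    apply tendsto_const_nhds.congr'
    filter_upwards [eventually_ge_atTop 1] with k hk
    exact (const_eq hk (hN k hk)).symm

end Pool.Agent.Results.MP_6f70ff_gt.TwoWayPath
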